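import Mathlib
import Pool.Agent.Y257.Dm.Main

/-!
# `d_n(E) ^ (n-1) ≤ 28 n` for all continua `E` of capacity one

Affirmative answer to Q2, with the explicit absolute constant `K = 28`.

Idea.  Let `g(ζ) = r ζ + …` be the exterior conformal map of a path close to `E` and let
`p_k(g(ζ)) = ζ ^ k + ∑_{l ≥ 1} e_{kl} ζ ^ (-l)` be the (Faber) polynomials of degree `k < n`.  The
Vandermonde determinant of `n` points of a level curve `|ζ| = 1 + 1/n` is, up to the factor
`r ^ (n(n-1)/2)`, the determinant of a product of the `n × ∞` matrix `(I, e)` and the matrix with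
the entries `ζ_j ^ k`, `ζ_j ^ (-l)`.  By the Cauchy-Schwarz inequality for determinants its square is
at most `det (I + e D e*)` times a determinant that Hadamard's inequality bounds by `(C n) ^ n`;
and `det (I + e D e*) = det (I + √D e* e √D) ≤ ∏_l (1 + d_l ∑_k |e_{kl}|^2) ≤ ∏_l (1 + d_l n / l)`,
because the area theorem gives `∑_{k<n} |e_{kl}|^2 / k ≤ 1 / l`.  Taking the trace instead of the
determinant is what produced the factor `log n` in the known bound.
-/

set_option autoImplicit false

open Filter Topology Set

namespace Pool.Agent.Results.MP_9ec5dc_an.ConnectedUpperBound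

open Pool.Agent.H655R3.Dia

/-- Q2 is true with the constant `28`: if `E ⊂ ℂ` is compact and connected with transfinite
diameter `lim d_n(E) = 1` and `n ≥ 2`, then `d_n(E) ^ (n-1) ≤ 28 n`. -/
theorem result : ∀ E : Set ℂ, IsCompact E → IsConnected E → HasTransfiniteDiam E 1 →
    ∀ n : ℕ, 2 ≤ n → nDiam E n ^ (n - 1) ≤ 28 * (n : ℝ) :=
  fun _ hE hc hd _ hn => Pool.Agent.Y257.Dm.main_upper hE hc.isPreconnected hd hn

end Pool.Agent.Results.MP_9ec5dc_an.ConnectedUpperBound
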